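import Pool.Agent.N909.CX.Def
import Pool.Agent.N18.CL.F2

/-!
# The fair random Collatz map, part X4: the positions along words in the tube
-/

set_option autoImplicit false

open Filter Set
open scoped Topology

namespace Pool.Agent.N655.CX.X4

open Pool.Agent.N909.CL Pool.Agent.N909.CM Pool.Agent.N909.CX Pool.Agent.N18.CL.F2

theorem tube_take {M : ℕ} {w : List Bool} (h : Tube M w) (i : ℕ) : Tube M (w.take i) := by
  intro j hj
  rw [List.length_take] at hj
  rw [List.take_take, min_eq_left (by omega)]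
  exact h j (by omega)

theorem pow_lt : (2 : ℕ) ^ 1000 < 3 ^ 631 := by
  calc (2 : ℕ) ^ 1000 = (2 ^ 250) ^ 4 := by rw [← pow_mul]
    _ < (3 ^ 157) ^ 4 * 3 ^ 3 := by norm_num
    _ = 3 ^ 631 := by rw [← pow_mul, ← pow_add]

/-- the slope of a word in the tube -/
theorem sl_ge {M : ℕ} {v : List Bool} (h : Tube M v) : 1 ≤ 3 ^ M * sl v := by
  have h1 := (abs_le.1 (h v.length le_rfl)).1
  rw [List.take_length] at h1
  obtain ⟨c, hc⟩ : ∃ c, c = v.count true := ⟨_, rfl⟩
  obtain ⟨l, hl⟩ : ∃ l, l = v.length := ⟨_, rfl⟩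
  rw [sl, ← hc, ← hl]
  rw [← hc, ← hl] at h1
  have h2 : (631 : ℝ) * l ≤ 1000 * (c + M) := by
    have : (0 : ℝ) ≤ l := Nat.cast_nonneg l
    linarith
  have h3 : 631 * l ≤ 1000 * (c + M) := by exact_mod_cast h2
  have h4 : (2 ^ l) ^ 1000 ≤ (3 ^ (c + M)) ^ 1000 := by
    calc (2 ^ l) ^ 1000 = (2 ^ 1000) ^ l := by rw [← pow_mul, ← pow_mul, mul_comm]
      _ ≤ (3 ^ 631) ^ l := Nat.pow_le_pow_left pow_lt.le l
      _ = 3 ^ (631 * l) := (pow_mul _ _ _).symm
      _ ≤ 3 ^ (1000 * (c + M)) := Nat.pow_le_pow_right (by norm_num) h3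
      _ = (3 ^ (c + M)) ^ 1000 := by rw [← pow_mul, mul_comm]
  have h5 : 2 ^ l ≤ 3 ^ (c + M) := by
    obtain ⟨e, he⟩ : ∃ e : ℕ, e = 1000 := ⟨_, rfl⟩
    rw [← he] at h4
    exact (Nat.pow_le_pow_iff_left (by omega)).1 h4
  have h6 : (2 : ℝ) ^ l ≤ 3 ^ (c + M) := by exact_mod_cast h5
  rw [mul_div_assoc', le_div_iff₀ (by positivity), one_mul, ← pow_add, add_comm]
  exact h6

theorem logs : 1000 * Real.log 2 < 631 * Real.log 3 := by
  have h1 : (2 : ℝ) ^ 1000 < 3 ^ 631 := by exact_mod_cast pow_lt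
  have h2 := Real.log_lt_log (by positivity) h1
  rw [Real.log_pow, Real.log_pow] at h2
  exact_mod_cast h2

theorem t (h0 : Stm0) : Stm4 := by
  intro M
  obtain ⟨N₀, hN₀⟩ := h0 M
  have hp9 : Tendsto (fun X : ℕ => (X : ℝ) ^ (9 / 10 : ℝ)) atTop atTop :=
    (tendsto_rpow_atTop (by norm_num)).comp tendsto_natCast_atTop_atTop
  have hp1 : Tendsto (fun X : ℕ => (X : ℝ) ^ (1 / 10 : ℝ)) atTop atTop :=
    (tendsto_rpow_atTop (by norm_num)).comp tendsto_natCast_atTop_atTop
  have hlt : Tendsto (fun X : ℕ => Real.log (X : ℝ)) atTop atTop :=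
    Real.tendsto_log_atTop.comp tendsto_natCast_atTop_atTop
  have hlog : ∀ δ C : ℝ, 0 < δ → 0 < C → ∀ᶠ X : ℕ in atTop, C * Real.log X ≤ (X : ℝ) ^ δ := by
    intro δ C hδ hC
    have h1 := (isLittleO_log_rpow_atTop hδ).bound (show (0 : ℝ) < 1 / C by positivity)
    have h2 := tendsto_natCast_atTop_atTop (R := ℝ) |>.eventually h1
    filter_upwards [h2] with X hX
    rw [Real.norm_eq_abs, Real.norm_eq_abs, abs_of_nonneg (Real.rpow_nonneg (Nat.cast_nonneg X) δ)] at hX
    have h3 := (le_abs_self _).trans hX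
    have h4 : C * Real.log X ≤ C * (1 / C * (X : ℝ) ^ δ) := mul_le_mul_of_nonneg_left h3 hC.le
    refine h4.trans (le_of_eq ?_)
    field_simp
  filter_upwards [eventually_ge_atTop N₀, eventually_ge_atTop 2, hp9.eventually_ge_atTop 1,
    hp1.eventually_gt_atTop (2 * 3 ^ M), hlog (9 / 10) 40 (by norm_num) (by norm_num),
    hlog (1 / 20) 40 (by norm_num) (by norm_num), hlt.eventually_gt_atTop (10 * (2 * M + 1)),
    hlt.eventually_ge_atTop 1] with N a1 a2 a3 a4 a5 a6 a7 a8
  intro n hn w hw hlen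
  have hN0 : (0 : ℝ) < N := by exact_mod_cast (by omega : 0 < N)
  have hval : ∀ i, (N : ℝ) ^ (9 / 10 : ℝ) < val n (w.take i) := by
    intro i
    have h1 := (hN₀ n (a1.trans hn) (w.take i) (tube_take hw i)).1
    have h2 := sl_ge (tube_take hw i)
    have h3 : (N : ℝ) ≤ n := by exact_mod_cast hn
    have h4 : (N : ℝ) = (N : ℝ) ^ (9 / 10 : ℝ) * (N : ℝ) ^ (1 / 10 : ℝ) := by
      rw [← Real.rpow_add hN0]
      norm_num
    have h5 : (0 : ℝ) < (N : ℝ) ^ (9 / 10 : ℝ) := by positivity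
    have h6 : (N : ℝ) ^ (9 / 10 : ℝ) * (2 * 3 ^ M) < N := by
      calc (N : ℝ) ^ (9 / 10 : ℝ) * (2 * 3 ^ M) < (N : ℝ) ^ (9 / 10 : ℝ) * (N : ℝ) ^ (1 / 10 : ℝ) :=
            mul_lt_mul_of_pos_left a4 h5
        _ = N := h4.symm
    have h7 : (0 : ℝ) < 3 ^ M := by positivity
    have h8 : (N : ℝ) ≤ 3 ^ M * (sl (w.take i) * n) := by
      calc (N : ℝ) ≤ 1 * n := by rw [one_mul]; exact h3
        _ ≤ (3 ^ M * sl (w.take i)) * n := mul_le_mul_of_nonneg_right h2 (Nat.cast_nonneg n)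
        _ = _ := by ring
    have h9 : (3 : ℝ) ^ M * (N : ℝ) ^ (9 / 10 : ℝ) < 3 ^ M * (sl (w.take i) * n / 2) := by linarith
    have h10 := lt_of_mul_lt_mul_left h9 h7.le
    linarith
  have hpos : ∀ p ∈ pos n w, (N : ℝ) ^ (9 / 10 : ℝ) < p := by
    intro p hp
    rw [pos_eq, List.mem_map] at hp
    obtain ⟨i, -, rfl⟩ := hp
    exact hval i
  refine ⟨hpos, ?_⟩
  -- no return
  have key : ∀ i j : ℕ, i < j → j < w.length → val n (w.take i) ≠ val n (w.take j) := by
    intro i j hij hj heq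
    obtain ⟨l, rfl⟩ : ∃ l, j = i + l := ⟨j - i, by omega⟩
    have hl : 1 ≤ l := by omega
    obtain ⟨v, hv⟩ : ∃ v, v = (w.drop i).take l := ⟨_, rfl⟩
    have htk : w.take (i + l) = w.take i ++ v := by rw [List.take_add, hv]
    have hvl : v.length = l := by
      rw [hv, List.length_take, List.length_drop]
      omega
    have hvne : v ≠ [] := by
      intro h0
      rw [h0] at hvl
      simp at hvl
      omega
    rw [htk, val_append] at heq
    have hposv : ∀ p ∈ pos (val n (w.take i)) v, (N : ℝ) ^ (9 / 10 : ℝ) < (p : ℝ) := by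
      intro p hp
      refine hpos p ?_
      have e : w = w.take (i + l) ++ w.drop (i + l) := (List.take_append_drop _ _).symm
      rw [e, htk, pos_append, pos_append]
      simp [hp]
    have hil : ((i + l : ℕ) : ℝ) ≤ 20 * Real.log N := by
      refine le_trans ?_ hlen
      exact_mod_cast hj.le
    push_cast at hil
    have hi0 : (0 : ℝ) ≤ i := Nat.cast_nonneg i
    have hl0 : (1 : ℝ) ≤ l := by exact_mod_cast hl
    obtain ⟨g1, g2, g3⟩ := loop a3 hposv hvne heq.symm (by rw [hvl]; linarith)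
    rw [hvl] at g1 g2 g3
    obtain ⟨c, hc⟩ : ∃ c, c = v.count true := ⟨_, rfl⟩
    rw [← hc] at g1 g2 g3
    have hci : (w.take (i + l)).count true = (w.take i).count true + c := by
      rw [htk, List.count_append, hc]
    have b1 := (abs_le.1 (hw i (by omega))).2
    have b2 := (abs_le.1 (hw (i + l) (by omega))).1
    rw [hci] at b2
    push_cast at b2
    -- the loop is long
    have hne2 : (2 : ℤ) ^ l ≠ 3 ^ c := by
      intro he
      have h9 : Even ((2 : ℤ) ^ l) := (Int.even_pow' (by omega)).2 even_two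
      rw [he] at h9
      have h10 : Odd ((3 : ℤ) ^ c) := Odd.pow (by decide)
      exact (Int.not_even_iff_odd.2 h10) h9
    have hone : (1 : ℝ) ≤ |(2 : ℝ) ^ l - 3 ^ c| := by
      have h9 : 1 ≤ |(2 : ℤ) ^ l - 3 ^ c| := Int.one_le_abs (sub_ne_zero.2 hne2)
      exact_mod_cast h9
    have h11 : (1 : ℝ) ≤ 3 ^ c * (l / (N : ℝ) ^ (9 / 10 : ℝ)) := hone.trans g3
    have hXp : (0 : ℝ) < (N : ℝ) ^ (9 / 10 : ℝ) := by positivity
    rw [mul_div_assoc', le_div_iff₀ hXp, one_mul] at h11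
    have h12 : (N : ℝ) ^ (9 / 10 : ℝ) ≤ 2 ^ l * (N : ℝ) ^ (1 / 20 : ℝ) := by
      calc (N : ℝ) ^ (9 / 10 : ℝ) ≤ 3 ^ c * l := h11
        _ ≤ (2 * 2 ^ l) * l := mul_le_mul_of_nonneg_right g1 (by positivity)
        _ = 2 ^ l * (2 * l) := by ring
        _ ≤ 2 ^ l * (N : ℝ) ^ (1 / 20 : ℝ) := by
          apply mul_le_mul_of_nonneg_left _ (by positivity)
          linarith
    have h13 := Real.log_le_log hXp h12
    rw [Real.log_mul (by positivity) (by positivity), Real.log_rpow hN0, Real.log_rpow hN0,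
      Real.log_pow] at h13
    have h14 := Real.log_two_lt_d9
    have h15 : (l : ℝ) * Real.log 2 ≤ l * 0.6931471808 := mul_le_mul_of_nonneg_left h14.le (by positivity)
    -- the number of steps up
    have h16 := Real.log_le_log (by positivity) g1
    rw [Real.log_mul (by norm_num) (by positivity), Real.log_pow, Real.log_pow] at h16
    have h17 := logs
    have hlog3 : 0 < Real.log 3 := Real.log_pos (by norm_num)
    have h18 : (c : ℝ) * 1000 ≤ 631 * (l + 1) := by
      have h19 : (c : ℝ) * 1000 * Real.log 3 ≤ 631 * (l + 1) * Real.log 3 := by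
        calc (c : ℝ) * 1000 * Real.log 3 = 1000 * (c * Real.log 3) := by ring
          _ ≤ 1000 * (Real.log 2 + l * Real.log 2) := mul_le_mul_of_nonneg_left h16 (by norm_num)
          _ = (l + 1) * (1000 * Real.log 2) := by ring
          _ ≤ (l + 1) * (631 * Real.log 3) := mul_le_mul_of_nonneg_left h17.le (by positivity)
          _ = _ := by ring
      exact le_of_mul_le_mul_right h19 hlog3
    linarith
  rw [pos_eq]
  refine List.Nodup.map_on ?_ List.nodup_range
  intro i hi j hj he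
  rw [List.mem_range] at hi hj
  rcases lt_trichotomy i j with h | h | h
  · exact absurd he (key i j h hj)
  · exact h
  · exact absurd he.symm (key j i h hi)

end Pool.Agent.N655.CX.X4
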